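import Pool.Agent.helper49.M4.Spec2
import Pool.Agent.helper47.M4.LOC

/-!
# M4 block II: row LC1b

`S = sinh(lam)^2`, `x = sin(th)^2 <= 4/5`, `u = cosh lam`. Case `S >= 1/2`: `A = (4+S) (1-(x-S)) (x-S)/x^2 < 1.69`
(STAR and `cosh(a)^2 <= 1 + S/4`). Case `S <= 1/2`: `sinh(a)^2 <= S/4` and
`sin(c)^2 (4 + S - 3 x) <= u^2 x` (FAIL squared, `tanh(a)^2 <= (u-1)/(u+1)`); the rest is a polynomial
inequality which is concave in `x` on `[S, 4/5]`.
-/

set_option autoImplicit false

namespace Pool.Agent.M4F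

open Real

/-- the polynomial inequality of case A. -/
theorem LC1b_polyA {S x : ℝ} (hS : 1 / 2 ≤ S) (hx : S < x) (hx5 : x ≤ 4 / 5) :
    (4 + S) * (1 - (x - S)) * (x - S) < 169 / 100 * x ^ 2 := by
  obtain ⟨y, rfl⟩ : ∃ y, x = S + y := ⟨x - S, by ring⟩
  have hy : 0 < y := by linarith
  have h1 : S + y - S = y := by ring
  rw [h1]
  obtain ⟨w, rfl⟩ : ∃ w, S = 1 / 2 + w := ⟨S - 1 / 2, by ring⟩
  have hw : 0 ≤ w := by linarith
  nlinarith [sq_nonneg (y - 227 / 1000), mul_nonneg hw hy.le, mul_nonneg hw (mul_nonneg hy.le hy.le),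
    mul_nonneg hw hw]

/-- the polynomial inequality of case B. -/
theorem LC1b_polyB {S x : ℝ} (hS0 : 0 < S) (hS : S ≤ 1 / 2) (hx : S < x) (hx5 : x ≤ 4 / 5) :
    (1 + S - x) * S * (4 + S - 3 * x) + 4 * (1 + S - x) * ((1 + S) * x) <
      169 / 100 * (S + x) * (4 + S - 3 * x) := by
  have h1 : 0 < x - S := by linarith
  have h2 : 0 ≤ 4 / 5 - x := by linarith
  have h3 : 0 < 4 / 5 - S := by linarith
  have h4 : 0 < 107 / 100 - S := by linarith
  have g1 : 0 < S * (552 / 100 - 876 / 100 * S) := by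
    apply mul_pos hS0; linarith
  have g2 : 0 < -S ^ 3 - 331 / 100 * S ^ 2 - 104 / 1000 * S + 15232 / 10000 := by
    have e1 : S ^ 2 ≤ 1 / 4 := by nlinarith
    have e2 : S ^ 3 ≤ 1 / 8 := by nlinarith [mul_nonneg hS0.le hS0.le, mul_nonneg hS0.le (sub_nonneg.mpr hS)]
    linarith
  have key : (4 / 5 - S) * (169 / 100 * (S + x) * (4 + S - 3 * x) -
      ((1 + S - x) * S * (4 + S - 3 * x) + 4 * (1 + S - x) * ((1 + S) * x))) =
      (4 / 5 - x) * (S * (552 / 100 - 876 / 100 * S)) +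
      (x - S) * (-S ^ 3 - 331 / 100 * S ^ 2 - 104 / 1000 * S + 15232 / 10000) +
      (4 / 5 - S) * (107 / 100 - S) * ((x - S) * (4 / 5 - x)) := by ring
  have h5 : 0 < (4 / 5 - S) * (169 / 100 * (S + x) * (4 + S - 3 * x) -
      ((1 + S - x) * S * (4 + S - 3 * x) + 4 * (1 + S - x) * ((1 + S) * x))) := by
    rw [key]
    have t1 : 0 ≤ (4 / 5 - x) * (S * (552 / 100 - 876 / 100 * S)) := mul_nonneg h2 g1.le
    have t2 := mul_pos h1 g2
    have t3 : 0 ≤ (4 / 5 - S) * (107 / 100 - S) * ((x - S) * (4 / 5 - x)) := by positivity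
    linarith
  have h6 := (mul_pos_iff_of_pos_left h3).mp h5
  linarith

theorem LC1b : LC1b_stmt := by
  intro l t a c h h5 hal
  have hl := h.lam0
  have ht := h.th0
  have ht2 := h.th1
  have ha := h.a0
  have hc := h.c0
  have hc2 := h.c1
  have lens : sinh l * sinh (a + l) < sin t * sin (c + t) := by
    have := h.lens
    rwa [add_comm l a, add_comm t c] at this
  have fail : cosh a * sin c * sinh l * cos t ≤ sinh a * cos c * cosh l * sin t := by
    have := h.fail
    calc cosh a * sin c * sinh l * cos t = cosh a * sin c * (sinh l * cos t) := by ring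
      _ ≤ sinh a * cos c * (cosh l * sin t) := this
      _ = _ := by ring
  have star := M4.STAR hl ht ht2 hc hc2 lens fail
  have hs : 0 < sinh l := sinh_pos_iff.mpr hl
  have hsa : 0 < sinh a := sinh_pos_iff.mpr ha
  have hst : 0 < sin t := sin_pos_of_pos_of_lt_pi ht (by linarith [pi_pos])
  have hsc : 0 < sin c := sin_pos_of_pos_of_lt_pi hc (by linarith [pi_pos])
  have hct : 0 < cos t := cos_pos_of_mem_Ioo ⟨by linarith, ht2⟩
  have hcc : 0 < cos c := cos_pos_of_mem_Ioo ⟨by linarith, hc2⟩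
  have hca : 1 ≤ cosh a := one_le_cosh a
  have hcosh1 : cosh (2 * a) ≤ cosh l := by
    rw [cosh_le_cosh, abs_of_pos (by linarith), abs_of_pos hl]
    linarith
  have hk2 : 2 * sinh a ^ 2 ≤ cosh l - 1 := by
    have h2 := cosh_two_mul a
    have h3 := cosh_sq a
    linarith
  have hu1 : 1 < cosh l := one_lt_cosh.mpr hl.ne'
  have hus : cosh l ^ 2 = sinh l ^ 2 + 1 := cosh_sq l
  have hcosh4 := M4.LOC_cosh_le l
  have eq1 : cos t ^ 2 = 1 - sin t ^ 2 := by rw [cos_sq']
  have eq2 : sinh a ^ 2 + sin c ^ 2 = cosh a ^ 2 - cos c ^ 2 := by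
    rw [sinh_sq, sin_sq]; ring
  have hcos1 : cos c ≤ 1 := cos_le_one c
  have hka : cosh a ^ 2 = sinh a ^ 2 + 1 := cosh_sq a
  have eqc : cos c ^ 2 = 1 - sin c ^ 2 := by rw [cos_sq']
  -- squares of fail
  have fsq : (1 + sinh a ^ 2) * (sin c ^ 2 * (sinh l ^ 2 * (1 - sin t ^ 2))) ≤
      sinh a ^ 2 * ((1 - sin c ^ 2) * (cosh l ^ 2 * sin t ^ 2)) := by
    have h1 : (cosh a * sin c * sinh l * cos t) ^ 2 ≤ (sinh a * cos c * cosh l * sin t) ^ 2 :=
      pow_le_pow_left₀ (by positivity) fail 2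
    calc (1 + sinh a ^ 2) * (sin c ^ 2 * (sinh l ^ 2 * (1 - sin t ^ 2)))
        = (cosh a * sin c * sinh l * cos t) ^ 2 := by
          rw [mul_pow, mul_pow, mul_pow, hka, eq1]; ring
      _ ≤ (sinh a * cos c * cosh l * sin t) ^ 2 := h1
      _ = _ := by rw [mul_pow, mul_pow, mul_pow, eqc]; ring
  have hkpos : 0 < sinh a ^ 2 := by positivity
  have hqpos : 0 < sin c ^ 2 := by positivity
  have hx1 : sin t ^ 2 ≤ 4 / 5 := by linarith
  have hxpos : 0 < sin t ^ 2 := by positivity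
  have hSpos : 0 < sinh l ^ 2 := by positivity
  have hSx : sinh l ^ 2 < sin t ^ 2 := by
    have e1 : sinh l ^ 2 * 1 ≤ sinh l ^ 2 * cosh a := mul_le_mul_of_nonneg_left hca hSpos.le
    have e2 : sin t ^ 2 * cos c ≤ sin t ^ 2 * 1 := mul_le_mul_of_nonneg_left hcos1 hxpos.le
    linarith
  unfold rh st
  have hgoal : 4 * (sinh l ^ 2 + cos t ^ 2) * (sinh a ^ 2 + sin c ^ 2) <
      169 / 100 * (sinh l ^ 2 + sin t ^ 2) := by
    rw [eq1]
    rcases le_or_gt (1 / 2) (sinh l ^ 2) with hcase | hcase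
    · -- case A
      rw [eq2]
      have hcosh2 : cosh a ^ 2 ≤ 1 + sinh l ^ 2 / 4 := by nlinarith
      set S := sinh l ^ 2 with hSd
      set x := sin t ^ 2 with hxd
      have h5' : x ^ 2 * (cosh a ^ 2 - cos c ^ 2) < cosh a ^ 2 * (x ^ 2 - S ^ 2) := by
        have : (S * cosh a) ^ 2 < (x * cos c) ^ 2 := by
          apply pow_lt_pow_left₀ star (by positivity) (by norm_num)
        nlinarith
      have h6 : cosh a ^ 2 * (x ^ 2 - S ^ 2) ≤ (1 + S / 4) * (x ^ 2 - S ^ 2) := by
        apply mul_le_mul_of_nonneg_right hcosh2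
        nlinarith
      have hpoly := LC1b_polyA hcase hSx hx1
      have hr0 : 0 < S + (1 - x) := by linarith
      have hS0 : 0 < S + x := by linarith
      have h7 : x ^ 2 * (4 * (S + (1 - x)) * (cosh a ^ 2 - cos c ^ 2)) <
          x ^ 2 * (169 / 100 * (S + x)) := by
        calc x ^ 2 * (4 * (S + (1 - x)) * (cosh a ^ 2 - cos c ^ 2))
            = 4 * (S + (1 - x)) * (x ^ 2 * (cosh a ^ 2 - cos c ^ 2)) := by ring
          _ < 4 * (S + (1 - x)) * (cosh a ^ 2 * (x ^ 2 - S ^ 2)) := by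
              apply mul_lt_mul_of_pos_left h5' (by linarith)
          _ ≤ 4 * (S + (1 - x)) * ((1 + S / 4) * (x ^ 2 - S ^ 2)) := by
              apply mul_le_mul_of_nonneg_left h6 (by linarith)
          _ = ((4 + S) * (1 - (x - S)) * (x - S)) * (S + x) := by ring
          _ ≤ (169 / 100 * x ^ 2) * (S + x) :=
              mul_le_mul_of_nonneg_right hpoly.le hS0.le
          _ = x ^ 2 * (169 / 100 * (S + x)) := by ring
      exact lt_of_mul_lt_mul_left h7 (by positivity)
    · -- case B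
      set S := sinh l ^ 2 with hSd
      set x := sin t ^ 2 with hxd
      set q := sin c ^ 2 with hqd
      set k := sinh a ^ 2 with hkd
      set u := cosh l with hud
      have hP : 0 ≤ q * (S * (1 - x)) := by
        have : 0 ≤ 1 - x := by linarith
        positivity
      have hRP : 0 ≤ (1 - q) * (u ^ 2 * x) - q * (S * (1 - x)) := by
        by_contra hcon
        rw [not_le] at hcon
        nlinarith [mul_pos_of_neg_of_neg hcon (neg_neg_of_pos hkpos)]
      have hb : q * (S * (1 - x)) ≤ (u - 1) / 2 * ((1 - q) * (u ^ 2 * x) - q * (S * (1 - x))) := by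
        have h1 : q * (S * (1 - x)) ≤ k * ((1 - q) * (u ^ 2 * x) - q * (S * (1 - x))) := by linarith
        have h2 : k * ((1 - q) * (u ^ 2 * x) - q * (S * (1 - x))) ≤
            (u - 1) / 2 * ((1 - q) * (u ^ 2 * x) - q * (S * (1 - x))) :=
          mul_le_mul_of_nonneg_right (by linarith) hRP
        linarith
      have hSu : S = (u - 1) * (u + 1) := by linarith [hus]
      have hb2 : (u - 1) * (q * ((u + 1) ^ 2 * (1 - x))) ≤ (u - 1) * ((1 - q) * (u ^ 2 * x)) := by
        rw [hSu] at hb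
        nlinarith
      have hb3 : q * ((u + 1) ^ 2 * (1 - x)) ≤ (1 - q) * (u ^ 2 * x) :=
        le_of_mul_le_mul_left hb2 (by linarith)
      have hD : 4 + S - 3 * x ≤ (u + 1) ^ 2 * (1 - x) + u ^ 2 * x := by
        have e1 : (u + 1) ^ 2 * (1 - x) + u ^ 2 * x = S + 1 + (2 * u + 1) * (1 - x) := by
          rw [show (u + 1) ^ 2 = u ^ 2 + 2 * u + 1 by ring, hus]; ring
        rw [e1]
        nlinarith
      have hqD : q * (4 + S - 3 * x) ≤ (1 + S) * x := by
        have e1 : q * (4 + S - 3 * x) ≤ q * ((u + 1) ^ 2 * (1 - x) + u ^ 2 * x) :=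
          mul_le_mul_of_nonneg_left hD hqpos.le
        have e2 : u ^ 2 * x = (1 + S) * x := by rw [hus]; ring
        nlinarith
      have hk4 : k ≤ S / 4 := by nlinarith
      have hDpos : 0 < 4 + S - 3 * x := by linarith
      have hpoly := LC1b_polyB hSpos hcase.le hSx hx1
      have hr0 : 0 < S + (1 - x) := by linarith
      have h7 : (4 * (S + (1 - x)) * (k + q)) * (4 + S - 3 * x) <
          (169 / 100 * (S + x)) * (4 + S - 3 * x) := by
        calc (4 * (S + (1 - x)) * (k + q)) * (4 + S - 3 * x)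
            = 4 * (S + (1 - x)) * (k * (4 + S - 3 * x) + q * (4 + S - 3 * x)) := by ring
          _ ≤ 4 * (S + (1 - x)) * (S / 4 * (4 + S - 3 * x) + (1 + S) * x) := by
              apply mul_le_mul_of_nonneg_left _ (by linarith)
              exact add_le_add (mul_le_mul_of_nonneg_right hk4 hDpos.le) hqD
          _ = (1 + S - x) * S * (4 + S - 3 * x) + 4 * (1 + S - x) * ((1 + S) * x) := by ring
          _ < 169 / 100 * (S + x) * (4 + S - 3 * x) := hpoly
      exact lt_of_mul_lt_mul_right h7 hDpos.le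
  norm_num at hgoal ⊢
  linarith

end Pool.Agent.M4F
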