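import Pool.Agent.helper49.M4.Spec
import Pool.Agent.helper47.M4.LOC

/-! # M4 block II: rows LC1, LC2 -/

set_option autoImplicit false

namespace Pool.Agent.M4F

open Real

theorem LC1 : LC1_stmt := by
  intro l t a c h h5 hal
  have lens : sinh l * sinh (a + l) < sin t * sin (c + t) := by
    have := h.lens
    rwa [add_comm l a, add_comm t c] at this
  have fail : cosh a * sin c * sinh l * cos t ≤ sinh a * cos c * cosh l * sin t := by
    have := h.fail
    calc cosh a * sin c * sinh l * cos t = cosh a * sin c * (sinh l * cos t) := by ring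
      _ ≤ sinh a * cos c * (cosh l * sin t) := this
      _ = _ := by ring
  have := M4.LOC1 h.lam0 h.th0 h.th1 h.a0 h.c0 h.c1 h5 lens fail hal
  unfold rh st
  norm_num at this ⊢
  linarith

theorem LC2 : LC2_stmt := by
  intro l t a c h h5 hal hZ
  have lens : sinh l * sinh (a + l) < sin t * sin (c + t) := by
    have := h.lens
    rwa [add_comm l a, add_comm t c] at this
  have fail : cosh a * sin c * sinh l * cos t ≤ sinh a * cos c * cosh l * sin t := by
    have := h.fail
    calc cosh a * sin c * sinh l * cos t = cosh a * sin c * (sinh l * cos t) := by ring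
      _ ≤ sinh a * cos c * (cosh l * sin t) := this
      _ = _ := by ring
  have hZ' : 169 / 100 * sin t ^ 2 ≤ 2 * (sinh l ^ 2 + cos t ^ 2) * cosh l := by
    unfold rh at hZ
    norm_num at hZ ⊢
    linarith
  have := M4.LOC2 h.lam0 h.th0 h.th1 h.c0 h.c1 h5 lens fail hal hZ'
  have e1 : sinh (l - a) ^ 2 = sinh (a - l) ^ 2 := by
    rw [show l - a = -(a - l) by ring, sinh_neg]; ring
  have e2 : sin (t - c) ^ 2 = sin (c - t) ^ 2 := by
    rw [show t - c = -(c - t) by ring, sin_neg]; ring
  rw [e1, e2]
  unfold rh st
  by_contra hcon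
  rw [not_or, not_lt, not_lt] at hcon
  obtain ⟨h1, h2⟩ := hcon
  norm_num at h1 h2 this
  linarith

end Pool.Agent.M4F
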