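import Pool.Agent.helper49.M4.Spec
import Pool.Agent.helper47.M4.LOC

/-! # M4 block II: row LC3 (the case `a < c λ/θ`, all `θ`) -/

set_option autoImplicit false

namespace Pool.Agent.M4F

open Real Set

theorem LC3_tan {x y : ℝ} (hx : 0 < x) (hxy : x ≤ y) (hy : y < π / 2) : tan x * y ≤ tan y * x := by
  have hy0 : 0 < y := hx.trans_le hxy
  have hcos : ∀ z ∈ Icc (0:ℝ) y, 0 < cos z := fun z hz =>
    cos_pos_of_mem_Ioo ⟨by linarith [hz.1, pi_pos], by linarith [hz.2]⟩
  have hconv : ConvexOn ℝ (Icc (0:ℝ) y) tan := by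
    refine MonotoneOn.convexOn_of_deriv (convex_Icc 0 y) ?_ ?_ ?_
    · intro z hz
      exact (hasDerivAt_tan (hcos z hz).ne').continuousAt.continuousWithinAt
    · intro z hz
      have hz' := interior_subset hz
      exact (hasDerivAt_tan (hcos z hz').ne').differentiableAt.differentiableWithinAt
    · intro u hu v hv huv
      have hu' := interior_subset hu
      have hv' := interior_subset hv
      rw [deriv_tan, deriv_tan]
      have h1 := hcos v hv'
      have h2 : cos v ≤ cos u := cos_le_cos_of_nonneg_of_le_pi hu'.1 (by linarith [hv'.2, pi_pos]) huv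
      gcongr
  have h := hconv.secant_mono (a := 0) (x := x) (y := y) ⟨le_rfl, hy0.le⟩ ⟨hx.le, hxy⟩
    ⟨hy0.le, le_rfl⟩ hx.ne' hy0.ne' hxy
  rw [tan_zero, sub_zero, sub_zero, sub_zero, sub_zero, div_le_div_iff₀ hx hy0] at h
  exact h

theorem LC3_tanh {x y : ℝ} (hx : 0 < x) (hxy : x ≤ y) : tanh y * x ≤ tanh x * y := by
  have hy0 : 0 < y := hx.trans_le hxy
  have hd : ∀ z : ℝ, HasDerivAt tanh (1 / cosh z ^ 2) z := by
    intro z
    have h1 := (hasDerivAt_sinh z).div (hasDerivAt_cosh z) (cosh_pos z).ne'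
    have h2 : (sinh / cosh : ℝ → ℝ) = tanh := by
      funext w
      rw [Pi.div_apply, tanh_eq_sinh_div_cosh]
    rw [h2] at h1
    refine h1.congr_deriv ?_
    have h3 := cosh_sq z
    have h4 : cosh z * cosh z - sinh z * sinh z = 1 := by linear_combination h3
    rw [h4]
  have hconc : ConcaveOn ℝ (Icc (0:ℝ) y) tanh := by
    refine AntitoneOn.concaveOn_of_deriv (convex_Icc 0 y) ?_ ?_ ?_
    · intro z _
      exact (hd z).continuousAt.continuousWithinAt
    · intro z _
      exact (hd z).differentiableAt.differentiableWithinAt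
    · intro u hu v hv huv
      have hu' := interior_subset hu
      have hv' := interior_subset hv
      rw [(hd u).deriv, (hd v).deriv]
      have h1 := cosh_pos u
      have h2 : cosh u ≤ cosh v := by
        rw [cosh_le_cosh, abs_of_nonneg hu'.1, abs_of_nonneg hv'.1]
        exact huv
      gcongr
  have h := hconc.neg.secant_mono (a := 0) (x := x) (y := y) ⟨le_rfl, hy0.le⟩ ⟨hx.le, hxy⟩
    ⟨hy0.le, le_rfl⟩ hx.ne' hy0.ne' hxy
  simp only [Pi.neg_apply, tanh_zero, neg_zero, sub_zero] at h
  rw [div_le_div_iff₀ hx hy0] at h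
  linarith

theorem LC3_key {u v : ℝ} (hu : 1 < u) (hv : 0 < v) (hw : u ^ 2 + v ^ 2 < 2) :
    2 * (u ^ 2 + v ^ 2 - 1) < 1.69 * (u + v) := by
  norm_num
  rcases le_or_gt (u ^ 2 + v ^ 2) (1845 / 1000) with h9 | h9
  · linarith
  · have : 1358 / 1000 < u + v := by
      by_contra hcon
      rw [not_lt] at hcon
      have h1 : (u + v) ^ 2 ≤ (1358 / 1000) ^ 2 := by
        apply pow_le_pow_left₀ (by linarith) hcon
      have h2 : 0 < u * v := by positivity
      nlinarith
    linarith

set_option maxHeartbeats 1000000 in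
/-- ROW LC3. -/
theorem LC3 (lam th a c : ℝ) (h : LF lam th a c) (h1 : lam / 2 < a) (h2 : a < c * lam / th) :
    4 * rh lam th * (sinh (lam - a) ^ 2 + sin (th - c) ^ 2) < 1.69 * st lam th := by
  have hlam := h.lam0
  have hth := h.th0
  have hth1 := h.th1
  have hc0 := h.c0
  have hc1 := h.c1
  have hst : 0 < sin th := sin_pos_of_pos_of_lt_pi hth (by linarith [pi_pos])
  have hct : 0 < cos th := cos_pos_of_mem_Ioo ⟨by linarith, hth1⟩
  have hsc : 0 < sin c := sin_pos_of_pos_of_lt_pi hc0 (by linarith [pi_pos])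
  have hcc : 0 < cos c := cos_pos_of_mem_Ioo ⟨by linarith, hc1⟩
  have hs : 0 < sinh lam := sinh_pos_iff.mpr hlam
  -- fail with tan
  have hfail : tan c * tanh lam ≤ tanh a * tan th := by
    rw [tan_eq_sin_div_cos, tan_eq_sin_div_cos, tanh_eq_sinh_div_cosh, tanh_eq_sinh_div_cosh,
      div_mul_div_comm, div_mul_div_comm, div_le_div_iff₀ (by positivity) (by positivity)]
    have := h.fail
    nlinarith
  have hct' : c < th := by
    by_contra hcon
    rw [not_lt] at hcon
    have e1 := LC3_tan hth hcon hc1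
    have hle : lam ≤ c * lam / th := by
      rw [le_div_iff₀ hth]; nlinarith
    have e2 := LC3_tanh hlam hle
    have e3 : tanh a < tanh (c * lam / th) := by
      rw [tanh_eq_sinh_div_cosh, tanh_eq_sinh_div_cosh,
        div_lt_div_iff₀ (cosh_pos _) (cosh_pos _)]
      have g1 : 0 < sinh (c * lam / th - a) := sinh_pos_iff.mpr (by linarith)
      rw [sinh_sub] at g1
      linarith
    have ht0 : 0 < tan th := tan_pos_of_pos_of_lt_pi_div_two hth hth1
    have hth0' : 0 < tanh lam := by
      rw [tanh_eq_sinh_div_cosh]; exact div_pos hs (cosh_pos _)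
    have e4 : tanh (c * lam / th) * th ≤ tanh lam * c := by
      have : tanh (c * lam / th) * lam ≤ tanh lam * (c * lam / th) := e2
      have h3 : tanh (c * lam / th) * lam * th ≤ tanh lam * (c * lam / th) * th :=
        mul_le_mul_of_nonneg_right this hth.le
      have h4 : tanh lam * (c * lam / th) * th = tanh lam * c * lam := by field_simp
      rw [h4] at h3
      have h5 : (tanh (c * lam / th) * th) * lam ≤ (tanh lam * c) * lam := by linarith
      exact le_of_mul_le_mul_right h5 hlam
    have e5 : tan th * tanh (c * lam / th) * th ≤ tan th * (tanh lam * c) := by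
      have := mul_le_mul_of_nonneg_left e4 ht0.le
      linarith
    have e6 : tan th * c * tanh lam ≤ tan c * th * tanh lam :=
      mul_le_mul_of_nonneg_right e1 hth0'.le
    have e7 : tanh a * tan th * th < tanh (c * lam / th) * tan th * th := by
      have := mul_lt_mul_of_pos_right e3 ht0
      exact mul_lt_mul_of_pos_right this hth
    have e8 : tan c * tanh lam * th ≤ tanh a * tan th * th :=
      mul_le_mul_of_nonneg_right hfail hth.le
    nlinarith
  have ha : a < lam := by
    refine lt_of_lt_of_le h2 ?_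
    rw [div_le_iff₀ hth]
    nlinarith
  have hc2 : th / 2 < c := by
    have : lam / 2 < c * lam / th := h1.trans h2
    rw [lt_div_iff₀ hth] at this
    nlinarith
  -- squares
  have f1 : sinh (lam - a) ^ 2 ≤ (cosh lam - 1) / 2 := by
    have g1 : cosh (2 * (lam - a)) ≤ cosh lam := by
      rw [cosh_le_cosh, abs_of_pos hlam, abs_of_pos (by linarith)]
      linarith
    have g2 := cosh_two_mul (lam - a)
    have g3 := cosh_sq (lam - a)
    linarith
  have f2 : sin (th - c) ^ 2 ≤ (1 - cos th) / 2 := by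
    have g1 : cos th ≤ cos (2 * (th - c)) :=
      cos_le_cos_of_nonneg_of_le_pi (by linarith) (by linarith [pi_pos]) (by linarith)
    have g2 := cos_two_mul (th - c)
    have g3 := sin_sq (th - c)
    linarith
  have star := M4.STAR hlam hth hth1 hc0 hc1
    (by have := h.lens; rwa [add_comm lam a, add_comm th c] at this)
    (by
      have := h.fail
      calc cosh a * sin c * sinh lam * cos th = cosh a * sin c * (sinh lam * cos th) := by ring
        _ ≤ sinh a * cos c * (cosh lam * sin th) := this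
        _ = _ := by ring)
  have hca : 1 ≤ cosh a := one_le_cosh a
  have hS : sinh lam ^ 2 < sin th ^ 2 := by
    have g1 : sinh lam ^ 2 * 1 ≤ sinh lam ^ 2 * cosh a := by gcongr
    have g2 : sin th ^ 2 * cos c ≤ sin th ^ 2 * 1 := by
      gcongr
      exact cos_le_one c
    linarith
  unfold rh st
  have hu : cosh lam ^ 2 = sinh lam ^ 2 + 1 := cosh_sq lam
  have hv : sin th ^ 2 = 1 - cos th ^ 2 := sin_sq th
  have hu1 : 1 < cosh lam := by
    rw [one_lt_cosh]; exact hlam.ne'
  have hv1 : cos th < 1 := by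
    have : cos th ^ 2 < 1 := by
      have : 0 < sin th ^ 2 := by positivity
      linarith
    nlinarith
  set u := cosh lam with hudef
  set v := cos th with hvdef
  have e1 : sinh lam ^ 2 = u ^ 2 - 1 := by linarith
  rw [e1, hv]
  rw [e1, hv] at hS
  have hw : u ^ 2 + v ^ 2 < 2 := by linarith
  have key : 2 * (u ^ 2 + v ^ 2 - 1) < 1.69 * (u + v) := LC3_key hu1 hct hw
  have hrho : 0 < u ^ 2 - 1 + v ^ 2 := by
    have : 1 < u ^ 2 := by nlinarith
    nlinarith [sq_nonneg v]
  have f3 : 4 * (u ^ 2 - 1 + v ^ 2) * (sinh (lam - a) ^ 2 + sin (th - c) ^ 2) ≤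
      4 * (u ^ 2 - 1 + v ^ 2) * ((u - 1) / 2 + (1 - v) / 2) :=
    mul_le_mul_of_nonneg_left (add_le_add f1 f2) (by linarith)
  refine lt_of_le_of_lt f3 ?_
  have f4 : 4 * (u ^ 2 - 1 + v ^ 2) * ((u - 1) / 2 + (1 - v) / 2) =
      (2 * (u ^ 2 + v ^ 2 - 1)) * (u - v) := by ring
  have f5 : 1.69 * (u ^ 2 - 1 + (1 - v ^ 2)) = (1.69 * (u + v)) * (u - v) := by ring
  rw [f4, f5]
  exact mul_lt_mul_of_pos_right key (by linarith)

end Pool.Agent.M4F
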